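import Pool.Agent.Helper80.PR.ZDefs

/-!
MP_3976d4_co, module M3 of helper80's theorem on periodic points: integral chains. Descent of
integral acyclicity to subsets which are acyclic modulo a prime, for posets without chains of four
elements.
-/

set_option autoImplicit false

namespace Pool.Agent.Helper98.PZ

open scoped Classical
open Relation
open Pool.Agent.Helper43.SP (Ch er emp sg er_coe FinLen)
open Pool.Agent.Helper43.SP.FK
open Pool.Agent.Helper80.PR

noncomputable section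

variable {X : Type*} [PartialOrder X]

/-! ### supports -/

lemma supp_bd {k : Type*} [Field k] {T : Set X} {v : Ch X →₀ k} (hv : Supp (InU T) v) :
    Supp (InU T) (bd k X v) := by
  refine Supp.map (fun S hS => ?_) hv
  rw [bd_dl]
  refine Supp.sum _ _ fun x _ => Supp.smul _ (Supp.dl ?_)
  intro z hz
  rw [er_coe] at hz
  exact hS (Finset.mem_of_mem_erase (Finset.mem_coe.mp hz))

lemma suppZ_bdZ {T : Set X} {v : Ch X →₀ ℤ} (hv : SuppZ (InU T) v) : SuppZ (InU T) (bdZ v) := by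
  refine suppZ_of_red ?_
  rw [red_bdZ]
  exact supp_bd (hv.red ℚ)

lemma homZ_bdZ {d : ℕ} {v : Ch X →₀ ℤ} (hv : SuppZ (fun S : Ch X => S.1.card = d + 1) v) :
    SuppZ (fun S : Ch X => S.1.card = d) (bdZ v) := by
  refine suppZ_of_red ?_
  rw [red_bdZ]
  exact hom_bd (hv.red ℚ)

lemma SuppZ_add {R : Ch X → Prop} {v w : Ch X →₀ ℤ} (hv : SuppZ R v) (hw : SuppZ R w) :
    SuppZ R (v + w) := by
  intro S hS
  rw [Finsupp.add_apply, hv S hS, hw S hS, add_zero]

lemma SuppZ_sub {R : Ch X → Prop} {v w : Ch X →₀ ℤ} (hv : SuppZ R v) (hw : SuppZ R w) :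
    SuppZ R (v - w) := by
  intro S hS
  rw [Finsupp.sub_apply, hv S hS, hw S hS, sub_zero]

lemma SuppZ_smul {R : Ch X → Prop} {v : Ch X →₀ ℤ} (n : ℤ) (hv : SuppZ R v) :
    SuppZ R (n • v) := by
  intro S hS
  rw [Finsupp.smul_apply, hv S hS, smul_zero]

lemma SuppZ_sum {R : Ch X → Prop} {α : Type*} (s : Finset α) (f : α → Ch X →₀ ℤ)
    (h : ∀ a ∈ s, SuppZ R (f a)) : SuppZ R (∑ a ∈ s, f a) := by
  intro S hS
  rw [Finsupp.finsetSum_apply]
  exact Finset.sum_eq_zero fun a ha => h a ha S hS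

lemma SuppZ_single {R : Ch X → Prop} {S : Ch X} (n : ℤ) (hS : R S) :
    SuppZ R (Finsupp.single S n) := by
  intro T hT
  rw [Finsupp.single_apply, if_neg]
  rintro rfl
  exact hT hS

/-- division by `q` of an integral chain all of whose coefficients are divisible by `q` -/
lemma exists_div {q : ℤ} (hq : q ≠ 0) {w : Ch X →₀ ℤ} (h : ∀ S, q ∣ w S) :
    ∃ w1 : Ch X →₀ ℤ, w = q • w1 := by
  refine ⟨w.mapRange (fun n => n / q) (Int.zero_ediv q), ?_⟩
  ext S
  rw [Finsupp.smul_apply, Finsupp.mapRange_apply, smul_eq_mul, Int.mul_ediv_cancel' (h S)]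

lemma smulZ_inj {q : ℤ} (hq : q ≠ 0) {v w : Ch X →₀ ℤ} (h : q • v = q • w) : v = w := by
  ext S
  have h1 := congrArg (fun u : Ch X →₀ ℤ => u S) h
  simp only [Finsupp.smul_apply, smul_eq_mul] at h1
  exact mul_left_cancel₀ hq h1

lemma suppZ_of_smul {R : Ch X → Prop} {q : ℤ} (hq : q ≠ 0) {v : Ch X →₀ ℤ}
    (h : SuppZ R (q • v)) : SuppZ R v := by
  intro S hS
  have h1 := h S hS
  rw [Finsupp.smul_apply, smul_eq_mul] at h1
  exact (mul_eq_zero.mp h1).resolve_left hq

lemma dvd_of_red {q : ℕ} [Fact q.Prime] {w : Ch X →₀ ℤ} {S : Ch X}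
    (h : red (ZMod q) w S = 0) : (q : ℤ) ∣ w S := by
  rw [red_apply] at h
  exact (ZMod.intCast_zmod_eq_zero_iff_dvd _ _).mp h

lemma prime_ne {q : ℕ} [hq : Fact q.Prime] : (q : ℤ) ≠ 0 := by
  exact_mod_cast hq.out.ne_zero

/-! ### connectedness and injectivity -/

theorem conn_of_gex {k : Type*} [Field k] {T : Set X} (hex : GEx k T) : Conn T := by
  obtain ⟨w, hw1, hw2, hw3⟩ := hex 0 (dl k (emp : Ch X)) (Supp.dl (by intro z hz; simp [emp] at hz))
    (Supp.dl (by simp [emp])) bd_emp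
  have hne : w ≠ 0 := by
    rintro rfl
    rw [map_zero] at hw3
    have h1 := congrArg (fun u : Ch X →₀ k => u emp) hw3
    simp only [Finsupp.zero_apply, dl_self] at h1
    exact zero_ne_one h1
  obtain ⟨S, hS⟩ := Finsupp.support_nonempty_iff.mpr hne
  obtain ⟨a, rfl⟩ := eq_sg (hw2.mem hS)
  have ha : a ∈ T := hw1.mem hS (by rw [sg_coe]; simp)
  exact ⟨a, ha, fun z hz => connected hex ha hz⟩

lemma zero_of_card {k : Type*} [Field k] (h4 : ∀ S : Ch X, S.1.card ≤ 3) {i : ℕ} (hi : 4 ≤ i)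
    {v : Ch X →₀ k} (hv : Hom i v) : v = 0 := by
  ext S
  refine hv S fun h => ?_
  have := h4 S
  omega

theorem injF_of_gex (h4 : ∀ S : Ch X, S.1.card ≤ 3)
    (hex : ∀ q : ℕ, ∀ hq : Fact q.Prime, GEx (ZMod q) (Set.univ : Set X)) : InjF X := by
  intro q hq w hw hb
  obtain ⟨u, _, hu2, hu3⟩ := hex q hq 3 w (fun S hS => absurd (Set.subset_univ _) hS) hw hb
  rw [← hu3, zero_of_card h4 le_rfl hu2, map_zero]

/-! ### descent -/

/-- coefficients off `T'` are divisible by `p` -/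
lemma dvd_off {p : ℕ} [hp : Fact p.Prime] {T' : Set X} (hinj : InjF X) (hex : GEx (ZMod p) T')
    {w : Ch X →₀ ℤ} (hw : SuppZ (fun S : Ch X => S.1.card = 3) w)
    (hb : SuppZ (InU T') (bdZ w)) (S : Ch X) (hS : ¬ InU T' S) : (p : ℤ) ∣ w S := by
  have h1 : Hom 3 (red (ZMod p) w) := hw.red _
  have h2 : bd (ZMod p) X (red (ZMod p) w) = red (ZMod p) (bdZ w) := (red_bdZ _ _).symm
  obtain ⟨u, hu1, hu2, hu3⟩ := hex 2 (bd (ZMod p) X (red (ZMod p) w))
    (by rw [h2]; exact hb.red _) (hom_bd h1) (bd_bd _)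
  have h3 : red (ZMod p) w - u = 0 := by
    refine hinj p hp _ (Supp.sub h1 hu2) ?_
    rw [map_sub, hu3, sub_self]
  have h4 : red (ZMod p) w S = 0 := by
    rw [sub_eq_zero.mp h3]
    exact hu1 S hS
  exact dvd_of_red h4

lemma pow_dvd_off {p : ℕ} [hp : Fact p.Prime] {T' : Set X} (hinj : InjF X)
    (hex : GEx (ZMod p) T') (j : ℕ) :
    ∀ w : Ch X →₀ ℤ, SuppZ (fun S : Ch X => S.1.card = 3) w → SuppZ (InU T') (bdZ w) →
      ∀ S : Ch X, ¬ InU T' S → (p : ℤ) ^ j ∣ w S := by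
  induction j with
  | zero => intro w _ _ S _; simp
  | succ j ih =>
    intro w hw hb S hS
    obtain ⟨w1, hw1⟩ : ∃ w1 : Ch X →₀ ℤ, w.filter (fun S => ¬ InU T' S) = (p : ℤ) • w1 := by
      refine exists_div prime_ne fun S => ?_
      by_cases h : InU T' S
      · rw [Finsupp.filter_apply, if_neg (not_not.mpr h)]
        exact dvd_zero _
      · rw [Finsupp.filter_apply, if_pos h]
        exact dvd_off hinj hex hw hb S h
    have hsum : w.filter (InU T') + (p : ℤ) • w1 = w := by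
      rw [← hw1]
      exact Finsupp.filter_add_filter_not w (InU T')
    have e1 : SuppZ (InU T') (w.filter (InU T')) := fun S hS => Finsupp.filter_apply_neg _ _ hS
    have h3 : SuppZ (fun S : Ch X => S.1.card = 3) w1 := by
      refine suppZ_of_smul (q := (p : ℤ)) prime_ne ?_
      rw [← hw1]
      intro S hS
      rw [Finsupp.filter_apply]
      by_cases h : InU T' S
      · rw [if_neg (not_not.mpr h)]
      · rw [if_pos h]
        exact hw S hS
    have h4 : SuppZ (InU T') (bdZ w1) := by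
      refine suppZ_of_smul (q := (p : ℤ)) prime_ne ?_
      have e2 : (p : ℤ) • bdZ w1 = bdZ w - bdZ (w.filter (InU T')) := by
        rw [← map_smul, ← map_sub]
        congr 1
        rw [← hsum]
        conv_rhs => rw [hsum]
        rw [eq_sub_iff_add_eq, add_comm, hsum]
      rw [e2]
      exact SuppZ_sub hb (suppZ_bdZ e1)
    have h5 := ih w1 h3 h4 S hS
    have h6 : w S = (p : ℤ) * w1 S := by
      rw [← hsum, Finsupp.add_apply, e1 S hS, zero_add, Finsupp.smul_apply, smul_eq_mul]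
    rw [h6, pow_succ, mul_comm]
    exact mul_dvd_mul_left _ h5

/-- An integral chain of three-element chains with boundary in an acyclic set lies in the set. -/
theorem descent {p : ℕ} [hp : Fact p.Prime] {T' : Set X} (hinj : InjF X)
    (hex : GEx (ZMod p) T') {w : Ch X →₀ ℤ} (hw : SuppZ (fun S : Ch X => S.1.card = 3) w)
    (hb : SuppZ (InU T') (bdZ w)) : SuppZ (InU T') w := by
  intro S hS
  by_contra hne
  have h1 : ∀ j : ℕ, (p : ℤ) ^ j ∣ w S := fun j => pow_dvd_off hinj hex j w hw hb S hS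
  have h2 : (p : ℤ) ^ (w S).natAbs ≤ |w S| :=
    Int.le_of_dvd (abs_pos.mpr hne) ((dvd_abs _ _).mpr (h1 _))
  have h3 : (w S).natAbs < p ^ (w S).natAbs := Nat.lt_pow_self hp.out.one_lt
  have h4 : ((w S).natAbs : ℤ) = |w S| := Int.natCast_natAbs _
  rw [← h4] at h2
  have h5 : p ^ (w S).natAbs ≤ (w S).natAbs := by exact_mod_cast h2
  omega

theorem intFill_sub {p : ℕ} [Fact p.Prime] {T T' : Set X} (hTT' : T' ⊆ T) (hinj : InjF X)
    (hex : GEx (ZMod p) T') (hf : IntFill T) : IntFill T' := by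
  intro v hv hv2 hb
  obtain ⟨w, _, hw2, hw3⟩ := hf v (fun S hS => hv S fun h => hS (h.trans hTT')) hv2 hb
  refine ⟨w, descent hinj hex hw2 ?_, hw2, hw3⟩
  rw [hw3]
  exact hv

/-! ### the start -/

lemma clear_den (u : Ch X →₀ ℚ) : ∃ N : ℕ, 0 < N ∧ ∃ w : Ch X →₀ ℤ, red ℚ w = (N : ℚ) • u := by
  induction u using Finsupp.induction_linear with
  | zero => exact ⟨1, one_pos, 0, by rw [red_zero, smul_zero]⟩
  | add u v hu hv =>
    obtain ⟨N, hN, w, hw⟩ := hu
    obtain ⟨M, hM, z, hz⟩ := hv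
    refine ⟨N * M, Nat.mul_pos hN hM, (M : ℤ) • w + (N : ℤ) • z, ?_⟩
    rw [red_add, red_smul, red_smul, hw, hz, smul_add, smul_smul, smul_smul]
    congr 2
    · push_cast
      ring
    · push_cast
      ring
  | single S r =>
    refine ⟨r.den, r.den_pos, Finsupp.single S r.num, ?_⟩
    rw [red_single]
    ext T
    rw [Finsupp.smul_apply, Finsupp.smul_apply, dl_apply, Finsupp.single_apply, smul_eq_mul,
      smul_eq_mul]
    by_cases h : S = T
    · rw [if_pos h, if_pos h.symm, mul_one, mul_comm, Rat.mul_den_eq_num]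
    · rw [if_neg h, if_neg (fun h' => h h'.symm), mul_zero, mul_zero]

lemma div_fill (hinj : InjF X) (v : Ch X →₀ ℤ) : ∀ N : ℕ, 0 < N → ∀ w : Ch X →₀ ℤ,
    SuppZ (fun S : Ch X => S.1.card = 3) w → bdZ w = (N : ℤ) • v →
      ∃ w' : Ch X →₀ ℤ, SuppZ (fun S : Ch X => S.1.card = 3) w' ∧ bdZ w' = v := by
  intro N
  induction N using Nat.strong_induction_on with
  | _ N ih =>
    intro hN w hw hb
    rcases Nat.eq_or_lt_of_le (Nat.succ_le_of_lt hN) with h1 | h1
    · refine ⟨w, hw, ?_⟩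
      rw [hb, ← h1]
      simp
    · obtain ⟨q, hq, hqN⟩ := Nat.exists_prime_and_dvd (n := N) (by omega)
      have : Fact q.Prime := ⟨hq⟩
      obtain ⟨M, rfl⟩ := hqN
      have h2 : red (ZMod q) w = 0 := by
        refine hinj q ⟨hq⟩ _ (hw.red _) ?_
        rw [← red_bdZ, hb, red_smul]
        push_cast
        rw [ZMod.natCast_self, zero_mul, zero_smul]
      obtain ⟨w1, rfl⟩ := exists_div (q := (q : ℤ)) prime_ne
        (fun S => dvd_of_red (w := w) (S := S) (by rw [h2]; rfl))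
      have hM : 0 < M := Nat.pos_of_mul_pos_left hN |> fun h => by
        rcases Nat.eq_zero_or_pos M with h0 | h0
        · rw [h0, mul_zero] at hN
          exact absurd hN (lt_irrefl _)
        · exact h0
      refine ih M ?_ hM w1 (suppZ_of_smul prime_ne hw) ?_
      · calc M = 1 * M := (one_mul M).symm
          _ < q * M := Nat.mul_lt_mul_of_pos_right hq.one_lt hM
      · refine smulZ_inj (q := (q : ℤ)) prime_ne ?_
        rw [← map_smul, hb, smul_smul]
        push_cast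
        rfl

theorem intFill_univ (hQ : GEx ℚ (Set.univ : Set X)) (hinj : InjF X) :
    IntFill (Set.univ : Set X) := by
  intro v _ hv2 hb
  obtain ⟨u, _, hu2, hu3⟩ := hQ 2 (red ℚ v) (fun S hS => absurd (Set.subset_univ _) hS)
    (hv2.red ℚ) (by rw [← red_bdZ, hb, red_zero])
  obtain ⟨N, hN, w, hw⟩ := clear_den u
  have h1 : SuppZ (fun S : Ch X => S.1.card = 3) w := by
    refine suppZ_of_red ?_
    rw [hw]
    exact Supp.smul _ hu2
  have h2 : bdZ w = (N : ℤ) • v := by
    apply red_inj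
    rw [red_bdZ, hw, map_smul, hu3, red_smul]
    push_cast
    rfl
  obtain ⟨w', hw1, hw2⟩ := div_fill hinj v N hN w h1 h2
  exact ⟨w', fun S hS => absurd (Set.subset_univ _) hS, hw1, hw2⟩

/-! ### from integral to modular acyclicity -/

lemma exists_lift {q : ℕ} [Fact q.Prime] (v : Ch X →₀ ZMod q) :
    ∃ w : Ch X →₀ ℤ, red (ZMod q) w = v ∧ ∀ S, v S = 0 → w S = 0 := by
  refine ⟨v.mapRange (fun a : ZMod q => (a.val : ℤ)) (by simp), ?_, ?_⟩
  · ext S
    rw [red_apply, Finsupp.mapRange_apply]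
    simp
  · intro S hS
    rw [Finsupp.mapRange_apply, hS]
    simp

lemma bdZ_pc (a b : X) (h : a < b) :
    bdZ (Finsupp.single (pc a b h) (1 : ℤ)) =
      Finsupp.single (sg b) 1 - Finsupp.single (sg a) 1 := by
  apply red_inj
  rw [red_bdZ, red_single, red_sub, red_single, red_single]
  push_cast
  rw [one_smul, one_smul, one_smul, bd_pc]

lemma fill_walkZ {T : Set X} {x z : X} (h : ReflTransGen (adj T) x z) :
    ∃ w : Ch X →₀ ℤ, SuppZ (InU T) w ∧ SuppZ (fun S : Ch X => S.1.card = 2) w ∧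
      bdZ w = Finsupp.single (sg z) 1 - Finsupp.single (sg x) 1 := by
  induction h with
  | refl => exact ⟨0, fun _ _ => rfl, fun _ _ => rfl, by rw [map_zero, sub_self]⟩
  | @tail a b _ h2 ih =>
    obtain ⟨w, hw1, hw2, hw3⟩ := ih
    have hin : ∀ a b : X, ∀ hab : a < b, a ∈ T → b ∈ T → InU T (pc a b hab) := by
      intro a b hab ha hb z hz
      simp only [pc, Finset.coe_insert, Finset.coe_singleton, Set.mem_insert_iff,
        Set.mem_singleton_iff] at hz
      rcases hz with rfl | rfl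
      · exact ha
      · exact hb
    have hcd : ∀ a b : X, ∀ hab : a < b, (pc a b hab).1.card = 2 := by
      intro a b hab
      exact Finset.card_pair hab.ne
    by_cases heq : a = b
    · subst heq
      exact ⟨w, hw1, hw2, hw3⟩
    · rcases h2.2.2 with h | h
      · have hab : a < b := lt_of_le_of_ne h heq
        refine ⟨w + Finsupp.single (pc a b hab) 1,
          SuppZ_add hw1 (SuppZ_single 1 (hin _ _ _ h2.1 h2.2.1)),
          SuppZ_add hw2 (SuppZ_single 1 (hcd _ _ _)), ?_⟩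
        rw [map_add, hw3, bdZ_pc]
        abel
      · have hab : b < a := lt_of_le_of_ne h (Ne.symm heq)
        refine ⟨w - Finsupp.single (pc b a hab) 1,
          SuppZ_sub hw1 (SuppZ_single 1 (hin _ _ _ h2.2.1 h2.1)),
          SuppZ_sub hw2 (SuppZ_single 1 (hcd _ _ _)), ?_⟩
        rw [map_sub, hw3, bdZ_pc]
        abel

lemma bdZ_sg (x : X) : bdZ (Finsupp.single (sg x) (1 : ℤ)) = Finsupp.single (emp : Ch X) 1 := by
  apply red_inj
  rw [red_bdZ, red_single, red_single]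
  push_cast
  rw [one_smul, one_smul, bd_sg]

/-- Integral zero-cycles of a connected set bound. -/
lemma fill_oneZ {T : Set X} (hc : Conn T) {v : Ch X →₀ ℤ} (hv : SuppZ (InU T) v)
    (hv1 : SuppZ (fun S : Ch X => S.1.card = 1) v) (hb : bdZ v = 0) :
    ∃ w : Ch X →₀ ℤ, SuppZ (InU T) w ∧ SuppZ (fun S : Ch X => S.1.card = 2) w ∧ bdZ w = v := by
  obtain ⟨o, ho, hT⟩ := hc
  have hmem : ∀ S ∈ v.support, InU T S ∧ S.1.card = 1 := by
    intro S hS
    have h0 := Finsupp.mem_support_iff.mp hS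
    exact ⟨by by_contra h; exact h0 (hv S h), by by_contra h; exact h0 (hv1 S h)⟩
  have h1 : ∀ S : Ch X, ∃ w : Ch X →₀ ℤ, SuppZ (InU T) w ∧
      SuppZ (fun S : Ch X => S.1.card = 2) w ∧
      (S ∈ v.support → bdZ w = Finsupp.single S 1 - Finsupp.single (sg o) 1) := by
    intro S
    by_cases hS : S ∈ v.support
    · obtain ⟨z, rfl⟩ := eq_sg (hmem S hS).2
      have hz : z ∈ T := (hmem _ hS).1 (by rw [sg_coe]; simp)
      obtain ⟨w, hw1, hw2, hw3⟩ := fill_walkZ (hT z hz)
      exact ⟨w, hw1, hw2, fun _ => hw3⟩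
    · exact ⟨0, fun _ _ => rfl, fun _ _ => rfl, fun h => absurd h hS⟩
  choose w hw1 hw2 hw3 using h1
  have hvs : v = ∑ S ∈ v.support, v S • Finsupp.single S (1 : ℤ) := by
    conv_lhs => rw [← Finsupp.sum_single v]
    unfold Finsupp.sum
    refine Finset.sum_congr rfl fun S _ => ?_
    rw [Finsupp.smul_single, smul_eq_mul, mul_one]
  have h4 : bdZ v = (∑ S ∈ v.support, v S) • Finsupp.single (emp : Ch X) (1 : ℤ) := by
    conv_lhs => rw [hvs, map_sum]
    rw [Finset.sum_smul]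
    refine Finset.sum_congr rfl fun S hS => ?_
    obtain ⟨z, rfl⟩ := eq_sg (hmem S hS).2
    rw [map_smul, bdZ_sg]
  have h5 : ∑ S ∈ v.support, v S = 0 := by
    rw [hb] at h4
    have h6 := congrArg (fun u : Ch X →₀ ℤ => u emp) h4
    simp only [Finsupp.zero_apply, Finsupp.smul_apply, Finsupp.single_eq_same, smul_eq_mul,
      mul_one] at h6
    exact h6.symm
  refine ⟨∑ S ∈ v.support, v S • w S, SuppZ_sum _ _ fun S _ => SuppZ_smul _ (hw1 S),
    SuppZ_sum _ _ fun S _ => SuppZ_smul _ (hw2 S), ?_⟩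
  rw [map_sum]
  have h7 : ∀ S ∈ v.support, bdZ (v S • w S) =
      v S • Finsupp.single S (1 : ℤ) - v S • Finsupp.single (sg o) (1 : ℤ) := by
    intro S hS
    rw [map_smul, hw3 S hS, smul_sub]
  rw [Finset.sum_congr rfl h7, Finset.sum_sub_distrib, ← Finset.sum_smul, h5, zero_smul,
    sub_zero, ← hvs]

theorem gex_of_fill {T : Set X} (hc : Conn T) (hf : IntFill T) (hinj : InjF X)
    (h4 : ∀ S : Ch X, S.1.card ≤ 3) (q : ℕ) [hq : Fact q.Prime] : GEx (ZMod q) T := by
  intro i v hv hvi hbd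
  rcases Nat.lt_or_ge i 1 with hi | hi
  · have hi0 : i = 0 := by omega
    subst hi0
    obtain ⟨o, ho, _⟩ := hc
    refine ⟨v emp • dl (ZMod q) (sg o), Supp.smul _ (Supp.dl ?_),
      Supp.smul _ (Supp.dl (by simp [sg])), ?_⟩
    · intro z hz
      rw [sg_coe, Finset.coe_singleton, Set.mem_singleton_iff] at hz
      rw [hz]; exact ho
    · rw [map_smul, bd_sg]
      ext S
      rw [Finsupp.smul_apply, dl_apply, smul_eq_mul]
      by_cases hS : S = emp
      · rw [if_pos hS, hS, mul_one]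
      · rw [if_neg hS, mul_zero]
        symm
        refine hvi S fun h => hS (Subtype.ext ?_)
        exact Finset.card_eq_zero.mp h
  obtain ⟨v1, hv1, hv1s⟩ := exists_lift v
  have hs1 : SuppZ (InU T) v1 := fun S hS => hv1s S (hv S hS)
  have hs2 : SuppZ (fun S : Ch X => S.1.card = i) v1 := fun S hS => hv1s S (hvi S hS)
  rcases Nat.lt_or_ge i 2 with hi2 | hi2
  · have hi1 : i = 1 := by omega
    subst hi1
    -- the degree is divisible by `q`
    obtain ⟨o, ho, hT⟩ := hc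
    have hd : (q : ℤ) ∣ bdZ v1 emp := by
      refine dvd_of_red ?_
      rw [red_bdZ, hv1, hbd]
      rfl
    obtain ⟨c, hcq⟩ := hd
    have hso : SuppZ (InU T) (Finsupp.single (sg o) (1 : ℤ)) := SuppZ_single 1 (by
      intro z hz
      rw [sg_coe, Finset.coe_singleton, Set.mem_singleton_iff] at hz
      rw [hz]; exact ho)
    have hso1 : SuppZ (fun S : Ch X => S.1.card = 1) (Finsupp.single (sg o) (1 : ℤ)) :=
      SuppZ_single 1 (by simp [sg])
    have hb0 : bdZ (v1 - ((q : ℤ) * c) • Finsupp.single (sg o) (1 : ℤ)) = 0 := by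
      rw [map_sub, map_smul, bdZ_sg]
      ext S
      rw [Finsupp.sub_apply, Finsupp.smul_apply, Finsupp.single_apply, Finsupp.zero_apply]
      by_cases hS : (emp : Ch X) = S
      · rw [if_pos hS, ← hS, hcq, smul_eq_mul, mul_one, sub_self]
      · rw [if_neg hS, smul_zero, sub_zero]
        exact homZ_bdZ hs2 S fun h => hS (Subtype.ext (Finset.card_eq_zero.mp h)).symm
    obtain ⟨w, hw1, hw2, hw3⟩ := fill_oneZ ⟨o, ho, hT⟩
      (SuppZ_sub hs1 (SuppZ_smul ((q : ℤ) * c) hso)) (SuppZ_sub hs2 (SuppZ_smul ((q : ℤ) * c) hso1))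
      hb0
    refine ⟨red (ZMod q) w, hw1.red _, hw2.red _, ?_⟩
    rw [← red_bdZ, hw3, red_sub, red_smul, hv1]
    push_cast
    rw [ZMod.natCast_self, zero_mul, zero_smul, sub_zero]
  rcases Nat.lt_or_ge i 3 with hi3 | hi3
  · have hi1 : i = 2 := by omega
    subst hi1
    obtain ⟨y1, hy1⟩ : ∃ y1 : Ch X →₀ ℤ, bdZ v1 = (q : ℤ) • y1 := by
      refine exists_div prime_ne fun S => dvd_of_red ?_
      rw [red_bdZ, hv1, hbd]
      rfl
    have hy2 : bdZ y1 = 0 := by
      refine smulZ_inj (q := (q : ℤ)) prime_ne ?_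
      rw [← map_smul, ← hy1, bdZ_bdZ, smul_zero]
    obtain ⟨y2, hy3, hy4, hy5⟩ := fill_oneZ hc
      (suppZ_of_smul (q := (q : ℤ)) prime_ne (by rw [← hy1]; exact suppZ_bdZ hs1))
      (suppZ_of_smul (q := (q : ℤ)) prime_ne (by rw [← hy1]; exact homZ_bdZ hs2)) hy2
    obtain ⟨w, hw1, hw2, hw3⟩ := hf (v1 - (q : ℤ) • y2) (SuppZ_sub hs1 (SuppZ_smul _ hy3))
      (SuppZ_sub hs2 (SuppZ_smul _ hy4)) (by rw [map_sub, map_smul, hy5, hy1, sub_self])
    refine ⟨red (ZMod q) w, hw1.red _, hw2.red _, ?_⟩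
    rw [← red_bdZ, hw3, red_sub, red_smul, hv1]
    push_cast
    rw [ZMod.natCast_self, zero_smul, sub_zero]
  · have hv0 : v = 0 := by
      rcases Nat.lt_or_ge i 4 with hi4 | hi4
      · have hi1 : i = 3 := by omega
        subst hi1
        exact hinj q hq v hvi hbd
      · exact zero_of_card h4 hi4 hvi
    exact ⟨0, Supp.zero _, Supp.zero _, by rw [map_zero, hv0]⟩

end

end Pool.Agent.Helper98.PZ
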